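import Mathlib

/-!
Gauss equation and second derivative test for a map `f : ℝ × ℝ → ℝ³`.
-/

namespace Pool.Agent.MP_665542_gt.H28

open scoped RealInnerProductSpace

abbrev E3 := EuclideanSpace ℝ (Fin 3)

/-- directional derivative -/
noncomputable def D {F : Type*} [NormedAddCommGroup F] [NormedSpace ℝ F]
    (w : ℝ × ℝ) (f : ℝ × ℝ → F) (x : ℝ × ℝ) : F := fderiv ℝ f x w

section
variable {F : Type*} [NormedAddCommGroup F] [NormedSpace ℝ F]

theorem contDiff_D {f : ℝ × ℝ → F} {n : ℕ} (hf : ContDiff ℝ (n + 1 : ℕ) f) (w : ℝ × ℝ) :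
    ContDiff ℝ n (D w f) := by
  have h : ContDiff ℝ n (fderiv ℝ f) := hf.fderiv_right (by push_cast; exact le_rfl)
  exact h.clm_apply contDiff_const

theorem D_comm {f : ℝ × ℝ → F} (hf : ContDiff ℝ 2 f) (v w x : ℝ × ℝ) :
    D v (D w f) x = D w (D v f) x := by
  have hs : IsSymmSndFDerivAt ℝ f x := hf.contDiffAt.isSymmSndFDerivAt (by simp)
  have hd : DifferentiableAt ℝ (fderiv ℝ f) x :=
    ((hf.fderiv_right (m := 1) (by norm_num)).differentiable (by norm_num)) x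
  have key : ∀ v w : ℝ × ℝ, D v (D w f) x = fderiv ℝ (fderiv ℝ f) x v w := by
    intro v w
    unfold D
    rw [fderiv_clm_apply hd (differentiableAt_const w)]
    simp
  rw [key, key, hs.eq]

end

theorem D_inner {a b : ℝ × ℝ → E3} (ha : Differentiable ℝ a) (hb : Differentiable ℝ b)
    (w x : ℝ × ℝ) :
    D w (fun y => ⟪a y, b y⟫) x = ⟪a x, D w b x⟫ + ⟪D w a x, b x⟫ := by
  unfold D
  exact fderiv_inner_apply ℝ (ha x) (hb x) w

theorem D_fst {φ : ℝ → ℝ} {φ' : ℝ} (x w : ℝ × ℝ) (h : HasDerivAt φ φ' x.1) :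
    D w (fun y : ℝ × ℝ => φ y.1) x = φ' * w.1 := by
  unfold D
  have : HasFDerivAt (fun y : ℝ × ℝ => φ y.1)
      ((ContinuousLinearMap.toSpanSingleton ℝ φ').comp (ContinuousLinearMap.fst ℝ ℝ ℝ)) x :=
    h.hasFDerivAt.comp x hasFDerivAt_fst
  rw [this.fderiv]
  simp [mul_comm]

theorem D_const (c : ℝ) (w x : ℝ × ℝ) : D w (fun _ : ℝ × ℝ => c) x = 0 := by
  unfold D; simp

/-- The consequences of the metric being `r² du² + ρ(u)² dv²`. -/
theorem gauss {f : ℝ × ℝ → E3} (hf : ContDiff ℝ 3 f) {r : ℝ} {ρ ρ' ρ'' : ℝ → ℝ}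
    (h1 : ∀ u, HasDerivAt ρ (ρ' u) u) (h2 : ∀ u, HasDerivAt ρ' (ρ'' u) u)
    (hE : ∀ x, ⟪D (1, 0) f x, D (1, 0) f x⟫ = r ^ 2)
    (hF : ∀ x, ⟪D (1, 0) f x, D (0, 1) f x⟫ = 0)
    (hG : ∀ x, ⟪D (0, 1) f x, D (0, 1) f x⟫ = ρ x.1 ^ 2) (x : ℝ × ℝ) :
    ⟪D (1, 0) (D (1, 0) f) x, D (1, 0) f x⟫ = 0 ∧
    ⟪D (1, 0) (D (1, 0) f) x, D (0, 1) f x⟫ = 0 ∧
    ⟪D (1, 0) (D (0, 1) f) x, D (1, 0) f x⟫ = 0 ∧
    ⟪D (1, 0) (D (0, 1) f) x, D (0, 1) f x⟫ = ρ x.1 * ρ' x.1 ∧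
    ⟪D (1, 0) (D (1, 0) f) x, D (0, 1) (D (0, 1) f) x⟫ -
      ⟪D (1, 0) (D (0, 1) f) x, D (1, 0) (D (0, 1) f) x⟫ = -(ρ' x.1 ^ 2 + ρ x.1 * ρ'' x.1) := by
  set a := D (1, 0) f with ha
  set b := D (0, 1) f with hb
  have hf2 : ContDiff ℝ 2 f := hf.of_le (by norm_num)
  have ca : ContDiff ℝ (2 : ℕ) a := contDiff_D (n := 2) (by exact_mod_cast hf) _
  have cb : ContDiff ℝ (2 : ℕ) b := contDiff_D (n := 2) (by exact_mod_cast hf) _
  have da : Differentiable ℝ a := ca.differentiable (by norm_num)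
  have db : Differentiable ℝ b := cb.differentiable (by norm_num)
  have dA : Differentiable ℝ (D (1, 0) a) :=
    (contDiff_D (n := 1) ca _).differentiable (by norm_num)
  have dB : Differentiable ℝ (D (1, 0) b) :=
    (contDiff_D (n := 1) cb _).differentiable (by norm_num)
  have hsym : D (0, 1) a = D (1, 0) b := by
    funext y; exact D_comm hf2 _ _ y
  have e1 : ∀ y, ⟪D (1, 0) a y, a y⟫ = 0 := by
    intro y
    have := D_inner da da (1, 0) y
    rw [show (fun y => ⟪a y, a y⟫) = fun _ => r ^ 2 from funext hE, D_const,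
      real_inner_comm (D (1, 0) a y)] at this
    linarith
  have e3 : ∀ y, ⟪D (1, 0) b y, a y⟫ = 0 := by
    intro y
    have := D_inner da da (0, 1) y
    rw [show (fun y => ⟪a y, a y⟫) = fun _ => r ^ 2 from funext hE, D_const,
      real_inner_comm (D (0, 1) a y), hsym] at this
    linarith
  have e2 : ∀ y, ⟪D (1, 0) a y, b y⟫ = 0 := by
    intro y
    have := D_inner da db (1, 0) y
    rw [show (fun y => ⟪a y, b y⟫) = fun _ => (0 : ℝ) from funext hF, D_const,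
      real_inner_comm (D (1, 0) b y), e3] at this
    linarith
  have e4 : ∀ y, ⟪D (1, 0) b y, b y⟫ = ρ y.1 * ρ' y.1 := by
    intro y
    have := D_inner db db (1, 0) y
    rw [show (fun y => ⟪b y, b y⟫) = fun y : ℝ × ℝ => (fun u => ρ u ^ 2) y.1 from funext hG,
      D_fst y _ ((h1 y.1).fun_pow 2), real_inner_comm (D (1, 0) b y)] at this
    simp at this
    linarith
  refine ⟨e1 x, e2 x, e3 x, e4 x, ?_⟩
  have t1 := D_inner dA db (0, 1) x
  rw [show (fun y => ⟪D (1, 0) a y, b y⟫) = fun _ => (0 : ℝ) from funext e2, D_const] at t1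
  have t2 := D_inner dB db (1, 0) x
  rw [show (fun y => ⟪D (1, 0) b y, b y⟫) = fun y : ℝ × ℝ => (fun u => ρ u * ρ' u) y.1 from
    funext e4, D_fst x _ ((h1 x.1).fun_mul (h2 x.1))] at t2
  have t3 : D (0, 1) (D (1, 0) a) x = D (1, 0) (D (1, 0) b) x := by
    rw [D_comm (by exact_mod_cast ca), hsym]
  rw [t3] at t1
  simp only [mul_one] at t2
  nlinarith

/-- one variable: at a global maximum the first derivative vanishes and the second is `≤ 0`. -/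
theorem snd_deriv_nonpos {φ φ' : ℝ → ℝ} {c : ℝ} (h1 : ∀ t, HasDerivAt φ (φ' t) t)
    (h2 : HasDerivAt φ' c 0) (hm : ∀ t, φ t ≤ φ 0) : φ' 0 = 0 ∧ c ≤ 0 := by
  have hmax : IsLocalMax φ 0 := Filter.Eventually.of_forall hm
  have h0 : φ' 0 = 0 := hmax.hasDerivAt_eq_zero (h1 0)
  refine ⟨h0, ?_⟩
  by_contra hc
  push Not at hc
  have hd : deriv φ = φ' := funext fun t => (h1 t).deriv
  have hmin : IsLocalMin φ 0 := by
    apply isLocalMin_of_deriv_deriv_pos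
    · rw [hd, h2.deriv]; exact hc
    · rw [hd]; exact h0
    · exact (h1 0).continuousAt
  have hconst : φ =ᶠ[nhds 0] fun _ => φ 0 := by
    filter_upwards [hmin] with t ht using le_antisymm (hm t) ht
  have hd0 : φ' =ᶠ[nhds 0] fun _ => (0 : ℝ) := by
    have := hconst.deriv
    rw [hd] at this
    simpa using this
  have : c = 0 := by
    rw [← h2.deriv, hd0.deriv_eq]; simp
  linarith

theorem hasDerivAt_line {F : Type*} [NormedAddCommGroup F] [NormedSpace ℝ F]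
    {g : ℝ × ℝ → F} (hg : Differentiable ℝ g) (x w : ℝ × ℝ) (t : ℝ) :
    HasDerivAt (fun s : ℝ => g (x + s • w)) (D w g (x + t • w)) t := by
  have h : HasDerivAt (fun s : ℝ => x + s • w) w t := by
    simpa using ((hasDerivAt_id t).smul_const w).const_add x
  exact (hg (x + t • w)).hasFDerivAt.comp_hasDerivAt t h

theorem D_lin {F : Type*} [NormedAddCommGroup F] [NormedSpace ℝ F]
    (g : ℝ × ℝ → F) (s t : ℝ) (x : ℝ × ℝ) :
    D (s, t) g x = s • D (1, 0) g x + t • D (0, 1) g x := by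
  unfold D
  rw [← map_smul, ← map_smul, ← map_add]
  congr 1
  simp

/-- first and second order conditions at a global maximum of a height function -/
theorem max_cond {f : ℝ × ℝ → E3} (hf : ContDiff ℝ 3 f) (ξ : E3) (x : ℝ × ℝ)
    (hm : ∀ y, ⟪f y, ξ⟫ ≤ ⟪f x, ξ⟫) :
    ⟪D (1, 0) f x, ξ⟫ = 0 ∧ ⟪D (0, 1) f x, ξ⟫ = 0 ∧ ⟪D (1, 0) (D (1, 0) f) x, ξ⟫ ≤ 0 ∧
      ⟪D (1, 0) (D (0, 1) f) x, ξ⟫ ^ 2 ≤
        ⟪D (1, 0) (D (1, 0) f) x, ξ⟫ * ⟪D (0, 1) (D (0, 1) f) x, ξ⟫ := by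
  have hf2 : ContDiff ℝ 2 f := hf.of_le (by norm_num)
  have df : Differentiable ℝ f := hf.differentiable (by norm_num)
  have dD : ∀ w, Differentiable ℝ (D w f) := fun w =>
    (contDiff_D (n := 1) (by exact_mod_cast hf2) w).differentiable (by norm_num)
  have key : ∀ w : ℝ × ℝ, ⟪D w f x, ξ⟫ = 0 ∧ ⟪D w (D w f) x, ξ⟫ ≤ 0 := by
    intro w
    have h1 : ∀ t, HasDerivAt (fun s : ℝ => ⟪f (x + s • w), ξ⟫) ⟪D w f (x + t • w), ξ⟫ t := by
      intro t
      simpa using (hasDerivAt_line df x w t).inner ℝ (hasDerivAt_const t ξ)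
    have h2 : HasDerivAt (fun s : ℝ => ⟪D w f (x + s • w), ξ⟫) ⟪D w (D w f) x, ξ⟫ 0 := by
      simpa using (hasDerivAt_line (dD w) x w 0).inner ℝ (hasDerivAt_const 0 ξ)
    have := snd_deriv_nonpos h1 h2 (by intro t; simpa using hm _)
    simpa using this
  have quad : ∀ s t : ℝ, s ^ 2 * ⟪D (1, 0) (D (1, 0) f) x, ξ⟫ +
      2 * s * t * ⟪D (1, 0) (D (0, 1) f) x, ξ⟫ + t ^ 2 * ⟪D (0, 1) (D (0, 1) f) x, ξ⟫ ≤ 0 := by
    intro s t
    have h := (key (s, t)).2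
    rw [D_lin, D_comm hf2 (1, 0) (s, t), D_comm hf2 (0, 1) (s, t), D_lin _ s t, D_lin _ s t,
      D_comm hf2 (0, 1) (1, 0)] at h
    simp only [inner_add_left, inner_smul_left, smul_add, conj_trivial] at h
    nlinarith
  refine ⟨(key _).1, (key _).1, (key _).2, ?_⟩
  set L := ⟪D (1, 0) (D (1, 0) f) x, ξ⟫
  set M := ⟪D (1, 0) (D (0, 1) f) x, ξ⟫
  set N := ⟪D (0, 1) (D (0, 1) f) x, ξ⟫
  have hd : discrim (-L) (-(2 * M)) (-N) ≤ 0 := by
    apply discrim_le_zero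
    intro s
    have := quad s 1
    nlinarith
  unfold discrim at hd
  nlinarith

end Pool.Agent.MP_665542_gt.H28
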