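import Mathlib
import Pool.Agent.MP_665542_gt.H28.Gauss

/-!
A doubly periodic `C³` map `ℝ² → ℝ³` cannot induce the metric `r² du² + (R + l r cos u)² dv²`
when `0 < l < 1`: the total positive curvature `4 π l` would be smaller than `4 π`.
-/

namespace Pool.Agent.MP_665542_gt.H28

open scoped RealInnerProductSpace
open MeasureTheory Real

theorem inner3 (a b : E3) : ⟪a, b⟫ = a 0 * b 0 + a 1 * b 1 + a 2 * b 2 := by
  simp [PiLp.inner_apply, Fin.sum_univ_three, mul_comm]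

/-- cross product in coordinates -/
def cr (a b : E3) : Fin 3 → ℝ :=
  ![a 1 * b 2 - a 2 * b 1, a 2 * b 0 - a 0 * b 2, a 0 * b 1 - a 1 * b 0]

/-- determinant of three column vectors -/
def det3 (p q s : Fin 3 → ℝ) : ℝ :=
  p 0 * (q 1 * s 2 - q 2 * s 1) - q 0 * (p 1 * s 2 - p 2 * s 1) + s 0 * (p 1 * q 2 - p 2 * q 1)

theorem hasFDerivAt_comp {a : ℝ × ℝ → E3} {x : ℝ × ℝ} (ha : DifferentiableAt ℝ a x) (i : Fin 3) :
    HasFDerivAt (fun y => a y i) ((EuclideanSpace.proj i).comp (fderiv ℝ a x)) x :=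
  (EuclideanSpace.proj (𝕜 := ℝ) i).hasFDerivAt.comp x ha.hasFDerivAt

theorem diff_nu {a b : ℝ × ℝ → E3} {c : ℝ × ℝ → ℝ} (ha : Differentiable ℝ a)
    (hb : Differentiable ℝ b) (hc : Differentiable ℝ c) :
    Differentiable ℝ (fun y => c y • cr (a y) (b y)) := by
  have pa : ∀ i, Differentiable ℝ (fun y => a y i) := fun i y =>
    (hasFDerivAt_comp (ha y) i).differentiableAt
  have pb : ∀ i, Differentiable ℝ (fun y => b y i) := fun i y =>
    (hasFDerivAt_comp (hb y) i).differentiableAt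
  apply hc.smul
  rw [differentiable_pi]
  intro i
  fin_cases i <;> simp only [cr] <;>
    exact ((pa _).mul (pb _)).sub ((pa _).mul (pb _))

theorem D_cr {a b : ℝ × ℝ → E3} (ha : Differentiable ℝ a)
    (hb : Differentiable ℝ b) (w x : ℝ × ℝ) :
    D w (fun y => cr (a y) (b y)) x = cr (D w a x) (b x) + cr (a x) (D w b x) := by
  have key : ∀ i j k l : Fin 3, HasFDerivAt (fun y => a y i * b y j - a y k * b y l)
      ((a x i • (EuclideanSpace.proj j).comp (fderiv ℝ b x) +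
        b x j • (EuclideanSpace.proj i).comp (fderiv ℝ a x)) -
       (a x k • (EuclideanSpace.proj l).comp (fderiv ℝ b x) +
        b x l • (EuclideanSpace.proj k).comp (fderiv ℝ a x))) x := fun i j k l =>
    ((hasFDerivAt_comp (ha x) i).mul (hasFDerivAt_comp (hb x) j)).sub
      ((hasFDerivAt_comp (ha x) k).mul (hasFDerivAt_comp (hb x) l))
  have hd : ∀ i, DifferentiableAt ℝ (fun y => cr (a y) (b y) i) x := by
    intro i
    fin_cases i
    · exact (key 1 2 2 1).differentiableAt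
    · exact (key 2 0 0 2).differentiableAt
    · exact (key 0 1 1 0).differentiableAt
  unfold D
  rw [fderiv_pi hd]
  funext i
  fin_cases i
  · have := (key 1 2 2 1).fderiv
    simp only [cr, ContinuousLinearMap.pi_apply] at *
    simp [this]; ring
  · have := (key 2 0 0 2).fderiv
    simp only [cr, ContinuousLinearMap.pi_apply] at *
    simp [this]; ring
  · have := (key 0 1 1 0).fderiv
    simp only [cr, ContinuousLinearMap.pi_apply] at *
    simp [this]; ring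

theorem D_smul {N : ℝ × ℝ → (Fin 3 → ℝ)} {c : ℝ × ℝ → ℝ} (hN : Differentiable ℝ N)
    (hc : Differentiable ℝ c) (w x : ℝ × ℝ) :
    D w (fun y => c y • N y) x = c x • D w N x + D w c x • N x := by
  unfold D
  rw [fderiv_fun_smul (hc x) (hN x)]
  simp

/-- the algebraic identity behind `det dν = K dA` -/
theorem det_identity (a b A B C : E3) (c c1 c2 : ℝ) :
    det3 (c • (cr A b + cr a B) + c1 • cr a b) (c • (cr B b + cr a C) + c2 • cr a b)
      (c • cr a b) =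
    c ^ 3 * ((⟪A, C⟫ - ⟪B, B⟫) * (⟪a, a⟫ * ⟪b, b⟫ - ⟪a, b⟫ ^ 2)
      - (⟪A, a⟫ * (⟪C, a⟫ * ⟪b, b⟫ - ⟪C, b⟫ * ⟪a, b⟫) +
          ⟪A, b⟫ * (⟪C, b⟫ * ⟪a, a⟫ - ⟪C, a⟫ * ⟪a, b⟫))
      + (⟪B, a⟫ * (⟪B, a⟫ * ⟪b, b⟫ - ⟪B, b⟫ * ⟪a, b⟫) +
          ⟪B, b⟫ * (⟪B, b⟫ * ⟪a, a⟫ - ⟪B, a⟫ * ⟪a, b⟫))) := by
  simp only [inner3, det3, cr, Pi.add_apply, Pi.smul_apply, smul_eq_mul, Matrix.cons_val_zero,
    Matrix.cons_val_one, Matrix.cons_val]
  ring

/-- the same identity for the height function in the normal direction -/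
theorem hess_identity (a b A B C : E3) :
    ⟪A, WithLp.toLp 2 (cr a b)⟫ * ⟪C, WithLp.toLp 2 (cr a b)⟫ - ⟪B, WithLp.toLp 2 (cr a b)⟫ ^ 2 =
      ((⟪A, C⟫ - ⟪B, B⟫) * (⟪a, a⟫ * ⟪b, b⟫ - ⟪a, b⟫ ^ 2)
      - (⟪A, a⟫ * (⟪C, a⟫ * ⟪b, b⟫ - ⟪C, b⟫ * ⟪a, b⟫) +
          ⟪A, b⟫ * (⟪C, b⟫ * ⟪a, a⟫ - ⟪C, a⟫ * ⟪a, b⟫))
      + (⟪B, a⟫ * (⟪B, a⟫ * ⟪b, b⟫ - ⟪B, b⟫ * ⟪a, b⟫) +
          ⟪B, b⟫ * (⟪B, b⟫ * ⟪a, a⟫ - ⟪B, a⟫ * ⟪a, b⟫))) := by
  simp only [inner3, cr, Matrix.cons_val_zero, Matrix.cons_val_one, Matrix.cons_val]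
  ring

theorem normal_parallel (a b ξ : E3) (h1 : ⟪a, ξ⟫ = 0) (h2 : ⟪b, ξ⟫ = 0) (hξ : ⟪ξ, ξ⟫ = 1)
    {σ : ℝ} (hσ : 0 < σ) (hab : ⟪a, a⟫ * ⟪b, b⟫ - ⟪a, b⟫ ^ 2 = σ ^ 2) :
    ∃ s : ℝ, (s = 1 ∨ s = -1) ∧ ξ = s • WithLp.toLp 2 (σ⁻¹ • cr a b) := by
  simp only [inner3] at h1 h2 hξ hab
  set t := cr a b 0 * ξ 0 + cr a b 1 * ξ 1 + cr a b 2 * ξ 2 with ht
  have e0 : cr a b 0 = t * ξ 0 := by
    simp only [ht, cr, Matrix.cons_val_zero, Matrix.cons_val_one, Matrix.cons_val]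
    linear_combination (-(a 1 * b 2 - a 2 * b 1)) * hξ + (b 2 * ξ 1 - b 1 * ξ 2) * h1 -
      (a 2 * ξ 1 - a 1 * ξ 2) * h2
  have e1 : cr a b 1 = t * ξ 1 := by
    simp only [ht, cr, Matrix.cons_val_zero, Matrix.cons_val_one, Matrix.cons_val]
    linear_combination (-(a 2 * b 0 - a 0 * b 2)) * hξ + (b 0 * ξ 2 - b 2 * ξ 0) * h1 -
      (a 0 * ξ 2 - a 2 * ξ 0) * h2
  have e2 : cr a b 2 = t * ξ 2 := by
    simp only [ht, cr, Matrix.cons_val_zero, Matrix.cons_val_one, Matrix.cons_val]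
    linear_combination (-(a 0 * b 1 - a 1 * b 0)) * hξ + (b 1 * ξ 0 - b 0 * ξ 1) * h1 -
      (a 1 * ξ 0 - a 0 * ξ 1) * h2
  have hn : cr a b 0 ^ 2 + cr a b 1 ^ 2 + cr a b 2 ^ 2 = σ ^ 2 := by
    simp only [cr, Matrix.cons_val_zero, Matrix.cons_val_one, Matrix.cons_val]
    linear_combination hab
  have ht2 : t ^ 2 = σ ^ 2 := by
    rw [e0, e1, e2] at hn
    linear_combination hn - t ^ 2 * hξ
  have hσ' : σ ≠ 0 := hσ.ne'
  have hcase : t = σ ∨ t = -σ := sq_eq_sq_iff_eq_or_eq_neg.1 ht2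
  rcases hcase with h | h
  · refine ⟨1, Or.inl rfl, ?_⟩
    ext i
    fin_cases i
    · simp [e0, h]; field_simp
    · simp [e1, h]; field_simp
    · simp [e2, h]; field_simp
  · refine ⟨-1, Or.inr rfl, ?_⟩
    ext i
    fin_cases i
    · simp [e0, h]; field_simp
    · simp [e1, h]; field_simp
    · simp [e2, h]; field_simp

/-- the map `(u, v, t) ↦ s t ν(u, v)` and its Jacobian -/
theorem jac {ν : ℝ × ℝ → (Fin 3 → ℝ)} (hν : Differentiable ℝ ν) (s : ℝ) (y : Fin 3 → ℝ) :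
    ∃ L : (Fin 3 → ℝ) →L[ℝ] (Fin 3 → ℝ),
      HasFDerivAt (fun y : Fin 3 → ℝ => (s * y 2) • ν (y 0, y 1)) L y ∧
      L.det = s ^ 3 * y 2 ^ 2 *
        det3 (D (1, 0) ν (y 0, y 1)) (D (0, 1) ν (y 0, y 1)) (ν (y 0, y 1)) := by
  have h0 : HasFDerivAt (fun y : Fin 3 → ℝ => (y 0, y 1))
      ((ContinuousLinearMap.proj (R := ℝ) (φ := fun _ : Fin 3 => ℝ) 0).prod
        (ContinuousLinearMap.proj (R := ℝ) (φ := fun _ : Fin 3 => ℝ) 1)) y :=
    ((ContinuousLinearMap.proj (R := ℝ) (φ := fun _ : Fin 3 => ℝ) 0).prod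
        (ContinuousLinearMap.proj (R := ℝ) (φ := fun _ : Fin 3 => ℝ) 1)).hasFDerivAt
  have h1 := (hν (y 0, y 1)).hasFDerivAt.comp y h0
  have h2 : HasFDerivAt (fun y : Fin 3 → ℝ => s * y 2)
      (s • ContinuousLinearMap.proj (R := ℝ) (φ := fun _ : Fin 3 => ℝ) 2) y :=
    (hasFDerivAt_apply 2 y).const_mul s
  refine ⟨_, h2.smul h1, ?_⟩
  rw [ContinuousLinearMap.det, ← LinearMap.det_toMatrix', Matrix.det_fin_three]
  have z : fderiv ℝ ν (y 0, y 1) (0, 0) = 0 := map_zero _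
  simp [LinearMap.toMatrix'_apply, D, det3, z]
  ring

theorem box_integral (l : ℝ) (hl : 0 ≤ l) :
    ∫⁻ y in Set.pi Set.univ
        (![Set.Icc (-(π / 2)) (π / 2), Set.Icc 0 (2 * π), Set.Icc 0 1] : Fin 3 → Set ℝ),
      ENNReal.ofReal (l * cos (y 0) * y 2 ^ 2) = ENNReal.ofReal (l * (π * 4 / 3)) := by
  set S : Fin 3 → Set ℝ := ![Set.Icc (-(π / 2)) (π / 2), Set.Icc 0 (2 * π), Set.Icc 0 1] with hS
  have hc : IsCompact (Set.pi Set.univ S) := by
    apply isCompact_univ_pi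
    intro i
    fin_cases i <;> exact isCompact_Icc
  have hcont : Continuous fun y : Fin 3 → ℝ => l * cos (y 0) * y 2 ^ 2 := by fun_prop
  rw [← ofReal_integral_eq_lintegral_ofReal (hcont.continuousOn.integrableOn_compact hc)]
  · congr 1
    have := integral_fintype_prod_eq_prod (𝕜 := ℝ) (E := fun _ : Fin 3 => ℝ)
      (![fun u => l * cos u, fun _ => 1, fun t => t ^ 2] : Fin 3 → ℝ → ℝ)
      (μ := fun i => volume.restrict (S i))
    rw [volume_pi, Measure.restrict_pi_pi]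
    simp only [Fin.prod_univ_three] at this
    simp only [hS, Matrix.cons_val_zero, Matrix.cons_val_one, Matrix.cons_val, mul_one] at this
    rw [this]
    have hpi := pi_pos
    rw [integral_Icc_eq_integral_Ioc, integral_Icc_eq_integral_Ioc, integral_Icc_eq_integral_Ioc,
      ← intervalIntegral.integral_of_le (by linarith), ← intervalIntegral.integral_of_le (by linarith),
      ← intervalIntegral.integral_of_le (by linarith)]
    simp
    ring
  · refine (ae_restrict_iff' hc.measurableSet).2 (Filter.Eventually.of_forall ?_)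
    intro y hy
    have h0 := hy 0 (Set.mem_univ _)
    simp only [hS, Matrix.cons_val_zero] at h0
    have : 0 ≤ cos (y 0) := cos_nonneg_of_mem_Icc h0
    positivity

theorem exists_max {f : ℝ × ℝ → E3} (hf : Continuous f)
    (hp1 : ∀ x, f (x + (2 * π, 0)) = f x) (hp2 : ∀ x, f (x + (0, 2 * π)) = f x) (ξ : E3) :
    ∃ x : ℝ × ℝ, x.1 ∈ Set.Icc (-π) π ∧ x.2 ∈ Set.Icc 0 (2 * π) ∧ ∀ y, ⟪f y, ξ⟫ ≤ ⟪f x, ξ⟫ := by
  have hpi := pi_pos
  have hK : IsCompact (Set.Icc (-π) π ×ˢ Set.Icc 0 (2 * π)) := isCompact_Icc.prod isCompact_Icc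
  have hne : (Set.Icc (-π) π ×ˢ Set.Icc 0 (2 * π)).Nonempty :=
    ⟨(0, 0), ⟨by constructor <;> simp <;> linarith, by constructor <;> simp; linarith⟩⟩
  have hc : Continuous fun y => ⟪f y, ξ⟫ := hf.inner continuous_const
  obtain ⟨x, hx, hmax⟩ := hK.exists_isMaxOn hne hc.continuousOn
  refine ⟨x, hx.1, hx.2, fun y => ?_⟩
  have p1 : Function.Periodic (fun u => f (u, y.2)) (2 * π) := fun u => by
    simpa using hp1 (u, y.2)
  obtain ⟨u, hu, hu'⟩ := p1.exists_mem_Ico (by linarith) y.1 (-π)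
  have p2 : Function.Periodic (fun v => f (u, v)) (2 * π) := fun v => by
    simpa using hp2 (u, v)
  obtain ⟨v, hv, hv'⟩ := p2.exists_mem_Ico (by linarith) y.2 0
  have : f y = f (u, v) := by
    rw [← hv']; exact hu'
  rw [this]
  apply hmax
  exact ⟨⟨hu.1, by linarith [hu.2]⟩, ⟨hv.1, by linarith [hv.2]⟩⟩

theorem core {r R l : ℝ} (hr : 0 < r) (hrR : r < R) (hl0 : 0 < l) (hl1 : l < 1)
    {f : ℝ × ℝ → E3} (hf : ContDiff ℝ 3 f)
    (hp1 : ∀ x, f (x + (2 * π, 0)) = f x) (hp2 : ∀ x, f (x + (0, 2 * π)) = f x)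
    (hE : ∀ x, ⟪D (1, 0) f x, D (1, 0) f x⟫ = r ^ 2)
    (hF : ∀ x, ⟪D (1, 0) f x, D (0, 1) f x⟫ = 0)
    (hG : ∀ x, ⟪D (0, 1) f x, D (0, 1) f x⟫ = (R + l * r * cos x.1) ^ 2) : False := by
  have hpi := pi_pos
  set ρ : ℝ → ℝ := fun u => R + l * r * cos u with hρ
  have h1 : ∀ u, HasDerivAt ρ (l * r * -sin u) u := fun u =>
    ((hasDerivAt_cos u).const_mul (l * r)).const_add R
  have h2 : ∀ u, HasDerivAt (fun u => l * r * -sin u) (l * r * -cos u) u := fun u =>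
    ((hasDerivAt_sin u).fun_neg).const_mul (l * r)
  have hρpos : ∀ u, 0 < ρ u := by
    intro u
    have := neg_one_le_cos u
    have h3 : 0 < l * r := mul_pos hl0 hr
    have h4 : l * r < r := by nlinarith
    simp only [hρ]
    nlinarith
  have G := gauss hf h1 h2 hE hF hG
  have hf2 : ContDiff ℝ 2 f := hf.of_le (by norm_num)
  set a := D (1, 0) f with ha
  set b := D (0, 1) f with hb
  have ca : ContDiff ℝ (2 : ℕ) a := contDiff_D (n := 2) (by exact_mod_cast hf) _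
  have cb : ContDiff ℝ (2 : ℕ) b := contDiff_D (n := 2) (by exact_mod_cast hf) _
  have da : Differentiable ℝ a := ca.differentiable (by norm_num)
  have db : Differentiable ℝ b := cb.differentiable (by norm_num)
  have hsym : D (0, 1) a = D (1, 0) b := by
    funext y; exact D_comm hf2 _ _ y
  set c : ℝ × ℝ → ℝ := fun x => (r * ρ x.1)⁻¹ with hc
  have dc : Differentiable ℝ c := by
    apply Differentiable.inv
    · simp only [hρ]; fun_prop
    · intro x; exact (mul_pos hr (hρpos _)).ne'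
  set ν : ℝ × ℝ → (Fin 3 → ℝ) := fun x => c x • cr (a x) (b x) with hν
  have dν : Differentiable ℝ ν := diff_nu da db dc
  have dN : Differentiable ℝ (fun x => cr (a x) (b x)) := by
    simpa using diff_nu (c := fun _ => 1) da db (differentiable_const _)
  -- the Gram expression
  have gram : ∀ x, ((⟪D (1, 0) a x, D (0, 1) b x⟫ - ⟪D (1, 0) b x, D (1, 0) b x⟫) *
        (⟪a x, a x⟫ * ⟪b x, b x⟫ - ⟪a x, b x⟫ ^ 2)
      - (⟪D (1, 0) a x, a x⟫ * (⟪D (0, 1) b x, a x⟫ * ⟪b x, b x⟫ - ⟪D (0, 1) b x, b x⟫ * ⟪a x, b x⟫) +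
          ⟪D (1, 0) a x, b x⟫ * (⟪D (0, 1) b x, b x⟫ * ⟪a x, a x⟫ - ⟪D (0, 1) b x, a x⟫ * ⟪a x, b x⟫))
      + (⟪D (1, 0) b x, a x⟫ * (⟪D (1, 0) b x, a x⟫ * ⟪b x, b x⟫ - ⟪D (1, 0) b x, b x⟫ * ⟪a x, b x⟫) +
          ⟪D (1, 0) b x, b x⟫ * (⟪D (1, 0) b x, b x⟫ * ⟪a x, a x⟫ - ⟪D (1, 0) b x, a x⟫ * ⟪a x, b x⟫)))
      = (r * ρ x.1) ^ 3 * (l * cos x.1) := by
    intro x
    obtain ⟨g1, g2, g3, g4, g5⟩ := G x
    rw [g1, g2, g3, g4, g5, hE, hF, hG]
    simp only [hρ]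
    ring
  have hdet : ∀ x, det3 (D (1, 0) ν x) (D (0, 1) ν x) (ν x) = l * cos x.1 := by
    intro x
    rw [hν, D_smul dN dc, D_smul dN dc, D_cr da db, D_cr da db, hsym]
    simp only
    rw [det_identity, gram]
    have hne := (mul_pos hr (hρpos x.1)).ne'
    have hcc : c x * (r * ρ x.1) = 1 := inv_mul_cancel₀ hne
    rw [← mul_assoc, ← mul_pow, hcc, one_pow, one_mul]
  -- Hessian determinant in the direction of the normal
  have hhess : ∀ (x) (s : ℝ), (s = 1 ∨ s = -1) →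
      ⟪D (1, 0) a x, s • WithLp.toLp 2 (ν x)⟫ * ⟪D (0, 1) b x, s • WithLp.toLp 2 (ν x)⟫ -
        ⟪D (1, 0) b x, s • WithLp.toLp 2 (ν x)⟫ ^ 2 = r * ρ x.1 * (l * cos x.1) := by
    intro x s hs
    have hs2 : s ^ 2 = 1 := by rcases hs with h | h <;> simp [h]
    have := hess_identity (a x) (b x) (D (1, 0) a x) (D (1, 0) b x) (D (0, 1) b x)
    rw [gram] at this
    simp only [hν, WithLp.toLp_smul, inner_smul_right]
    have hne := (mul_pos hr (hρpos x.1)).ne'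
    have hcc : c x * (r * ρ x.1) = 1 := inv_mul_cancel₀ hne
    calc _ = s ^ 2 * c x ^ 2 * (⟪D (1, 0) a x, WithLp.toLp 2 (cr (a x) (b x))⟫ *
          ⟪D (0, 1) b x, WithLp.toLp 2 (cr (a x) (b x))⟫ -
          ⟪D (1, 0) b x, WithLp.toLp 2 (cr (a x) (b x))⟫ ^ 2) := by ring
      _ = (c x * (r * ρ x.1)) ^ 2 * (r * ρ x.1 * (l * cos x.1)) := by rw [this, hs2]; ring
      _ = _ := by rw [hcc]; ring
  have hpar : ∀ (ξ : E3) (x), ⟪ξ, ξ⟫ = 1 → (∀ y, ⟪f y, ξ⟫ ≤ ⟪f x, ξ⟫) →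
      ∃ s : ℝ, (s = 1 ∨ s = -1) ∧ ξ = s • WithLp.toLp 2 (ν x) := by
    intro ξ x hξ hm
    obtain ⟨m1, m2, -, -⟩ := max_cond hf ξ x hm
    refine normal_parallel (a x) (b x) ξ m1 m2 hξ (mul_pos hr (hρpos x.1)) ?_
    rw [hE, hF, hG]; simp only [hρ]; ring
  -- the two sets of supporting points
  let A : ℝ → Set (ℝ × ℝ) := fun s =>
    {x | ∀ y, ⟪f y, s • WithLp.toLp 2 (ν x)⟫ ≤ ⟪f x, s • WithLp.toLp 2 (ν x)⟫}
  have cνE : ∀ s : ℝ, Continuous fun x => (s • WithLp.toLp 2 (ν x) : E3) := fun s =>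
    ((PiLp.continuous_toLp 2 _).comp dν.continuous).const_smul s
  have hAc : ∀ s, IsClosed (A s) := by
    intro s
    simp only [A, Set.ofPred_forall]
    exact isClosed_iInter fun y => isClosed_le (continuous_const.inner (cνE s))
      (hf.continuous.inner (cνE s))
  have hAcos : ∀ s : ℝ, (s = 1 ∨ s = -1) → ∀ x ∈ A s, 0 ≤ cos x.1 := by
    intro s hs x hx
    obtain ⟨-, -, -, m4⟩ := max_cond hf _ x hx
    have := hhess x s hs
    have h3 : 0 ≤ r * ρ x.1 * (l * cos x.1) := by rw [← this]; linarith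
    have h4 := mul_pos hr (hρpos x.1)
    by_contra hneg
    push Not at hneg
    have := mul_neg_of_pos_of_neg h4 (mul_neg_of_pos_of_neg hl0 hneg)
    linarith
  have hunit : ∀ x, ⟪(WithLp.toLp 2 (ν x) : E3), WithLp.toLp 2 (ν x)⟫ = 1 := by
    intro x
    have e1 := hE x
    have e2 := hF x
    have e3 := hG x
    have hne := (mul_pos hr (hρpos x.1)).ne'
    have hcc : c x * (r * ρ x.1) = 1 := inv_mul_cancel₀ hne
    rw [inner3] at e1 e2 e3 ⊢
    simp only [hν, cr, Pi.smul_apply, smul_eq_mul, Matrix.cons_val_zero, Matrix.cons_val_one,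
      Matrix.cons_val]
    have e3' : (b x) 0 * (b x) 0 + (b x) 1 * (b x) 1 + (b x) 2 * (b x) 2 = ρ x.1 ^ 2 := e3
    have : ((a x) 0 * (a x) 0 + (a x) 1 * (a x) 1 + (a x) 2 * (a x) 2) *
      ((b x) 0 * (b x) 0 + (b x) 1 * (b x) 1 + (b x) 2 * (b x) 2) -
      ((a x) 0 * (b x) 0 + (a x) 1 * (b x) 1 + (a x) 2 * (b x) 2) ^ 2 = (r * ρ x.1) ^ 2 := by
      rw [e1, e2, e3']; ring
    linear_combination c x ^ 2 * this + (c x * (r * ρ x.1) + 1) * hcc
  have hAdisj : Disjoint (A 1) (A (-1)) := by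
    rw [Set.disjoint_left]
    intro x hx1 hx2
    set ξ : E3 := WithLp.toLp 2 (ν x) with hξ
    have hconst : ∀ y, ⟪f y, ξ⟫ = ⟪f x, ξ⟫ := by
      intro y
      have u1 := hx1 y
      have u2 := hx2 y
      simp only [one_smul, neg_smul, inner_neg_right] at u1 u2
      exact le_antisymm u1 (by linarith)
    have hm1 : ∀ y, ⟪f y, ξ⟫ ≤ ⟪f (0, 0), ξ⟫ := fun y => by rw [hconst, hconst (0, 0)]
    have hm2 : ∀ y, ⟪f y, -ξ⟫ ≤ ⟪f (0, 0), -ξ⟫ := fun y => by
      rw [inner_neg_right, inner_neg_right, hconst, hconst (0, 0)]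
    obtain ⟨s, hs, hsξ⟩ := hpar ξ (0, 0) (hunit x) hm1
    have k1 := (max_cond hf ξ (0, 0) hm1).2.2.1
    have k2 := (max_cond hf (-ξ) (0, 0) hm2).2.2.1
    rw [inner_neg_right] at k2
    have k3 : ⟪D (1, 0) a (0, 0), ξ⟫ = 0 := le_antisymm k1 (by linarith)
    have k4 := hhess (0, 0) s hs
    rw [← hsξ, k3] at k4
    have h4 := mul_pos (mul_pos hr (hρpos 0)) hl0
    simp at k4
    nlinarith [sq_nonneg ⟪D (1, 0) b (0, 0), ξ⟫]
  -- the sets in three-space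
  let S : ℝ → Set (Fin 3 → ℝ) := fun s =>
    {y | (y 0, y 1) ∈ A s ∧ y 0 ∈ Set.Icc (-π) π ∧ y 1 ∈ Set.Icc 0 (2 * π) ∧ y 2 ∈ Set.Icc 0 1}
  have hSm : ∀ s, MeasurableSet (S s) := by
    intro s
    apply IsClosed.measurableSet
    refine ((hAc s).preimage (by fun_prop : Continuous fun y : Fin 3 → ℝ => (y 0, y 1))).inter ?_
    refine (isClosed_Icc.preimage (continuous_apply 0)).inter ?_
    exact (isClosed_Icc.preimage (continuous_apply 1)).inter
      (isClosed_Icc.preimage (continuous_apply 2))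
  let Φ : ℝ → (Fin 3 → ℝ) → (Fin 3 → ℝ) := fun s y => (s * y 2) • ν (y 0, y 1)
  have hvol : ∀ s : ℝ, (s = 1 ∨ s = -1) → volume (Φ s '' S s) ≤
      ∫⁻ y in S s, ENNReal.ofReal (l * cos (y 0) * y 2 ^ 2) := by
    intro s hs
    choose L hL hLd using jac dν s
    refine (addHaar_image_le_lintegral_abs_det_fderiv volume (hSm s)
      (fun y _ => (hL y).hasFDerivWithinAt)).trans (le_of_eq ?_)
    refine setLIntegral_congr_fun (hSm s) ?_
    intro y hy
    simp only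
    congr 1
    rw [hLd, hdet]
    have := hAcos s hs _ hy.1
    simp only at this ⊢
    have hp : 0 ≤ y 2 ^ 2 * (l * cos (y 0)) := by positivity
    rcases hs with h | h
    · rw [h, one_pow, one_mul, abs_of_nonneg hp]; ring
    · rw [h, show (-1 : ℝ) ^ 3 * y 2 ^ 2 * (l * cos (y 0)) = -(y 2 ^ 2 * (l * cos (y 0))) by ring,
        abs_neg, abs_of_nonneg hp]; ring
  have hcover : (WithLp.toLp 2) ⁻¹' (Metric.closedBall (0 : E3) 1) ⊆
      Φ 1 '' S 1 ∪ Φ (-1) '' S (-1) := by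
    intro w hw
    simp only [Set.mem_preimage, Metric.mem_closedBall, dist_zero_right] at hw
    obtain ⟨ξ, t, hξ, ht, hwt⟩ : ∃ (ξ : E3) (t : ℝ), ⟪ξ, ξ⟫ = 1 ∧ t ∈ Set.Icc (0 : ℝ) 1 ∧
        WithLp.toLp 2 w = t • ξ := by
      by_cases h0 : (WithLp.toLp 2 w : E3) = 0
      · exact ⟨_, 0, hunit (0, 0), ⟨le_rfl, zero_le_one⟩, by rw [h0, zero_smul]⟩
      · have hn : ‖(WithLp.toLp 2 w : E3)‖ ≠ 0 := norm_ne_zero_iff.2 h0
        refine ⟨‖(WithLp.toLp 2 w : E3)‖⁻¹ • WithLp.toLp 2 w, ‖(WithLp.toLp 2 w : E3)‖, ?_,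
          ⟨norm_nonneg _, hw⟩, ?_⟩
        · rw [inner_smul_left, inner_smul_right, real_inner_self_eq_norm_sq]
          simp only [conj_trivial]
          field_simp
        · rw [smul_smul, mul_inv_cancel₀ hn, one_smul]
    obtain ⟨x, hx1, hx2, hm⟩ := exists_max hf.continuous hp1 hp2 ξ
    obtain ⟨s, hs, hsξ⟩ := hpar ξ x hξ hm
    have hmem : w ∈ Φ s '' S s := by
      refine ⟨![x.1, x.2, t], ⟨?_, hx1, hx2, ht⟩, ?_⟩
      · intro y
        have := hm y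
        rw [hsξ] at this
        exact this
      · have : w = WithLp.ofLp (t • ξ) := by rw [← hwt]
        rw [this, hsξ]
        simp [Φ, smul_smul, mul_comm]
    rcases hs with h | h
    · left; rwa [h] at hmem
    · right; rwa [h] at hmem
  have hball : volume ((WithLp.toLp 2) ⁻¹' (Metric.closedBall (0 : E3) 1)) =
      ENNReal.ofReal (π * 4 / 3) := by
    rw [(PiLp.volume_preserving_toLp (Fin 3)).measure_preimage
      measurableSet_closedBall.nullMeasurableSet, EuclideanSpace.volume_closedBall_fin_three]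
    simp
  have hSdisj : Disjoint (S 1) (S (-1)) := by
    rw [Set.disjoint_left]
    intro y h1 h2
    exact Set.disjoint_left.1 hAdisj h1.1 h2.1
  have hbox : S 1 ∪ S (-1) ⊆ Set.pi Set.univ
      (![Set.Icc (-(π / 2)) (π / 2), Set.Icc 0 (2 * π), Set.Icc 0 1] : Fin 3 → Set ℝ) := by
    have key : ∀ s : ℝ, (s = 1 ∨ s = -1) → S s ⊆ Set.pi Set.univ
        (![Set.Icc (-(π / 2)) (π / 2), Set.Icc 0 (2 * π), Set.Icc 0 1] : Fin 3 → Set ℝ) := by
      intro s hs y hy i _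
      have hcos := hAcos s hs _ hy.1
      simp only at hcos
      fin_cases i
      · show y 0 ∈ Set.Icc (-(π / 2)) (π / 2)
        constructor
        · by_contra hlt
          push Not at hlt
          have := cos_neg_of_pi_div_two_lt_of_lt (x := -y 0) (by linarith)
            (by linarith [hy.2.1.1])
          rw [cos_neg] at this
          linarith
        · by_contra hlt
          push Not at hlt
          have := cos_neg_of_pi_div_two_lt_of_lt (x := y 0) hlt (by linarith [hy.2.1.2])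
          linarith
      · exact hy.2.2.1
      · exact hy.2.2.2
    exact Set.union_subset (key 1 (Or.inl rfl)) (key (-1) (Or.inr rfl))
  have final : ENNReal.ofReal (π * 4 / 3) ≤ ENNReal.ofReal (l * (π * 4 / 3)) := by
    calc ENNReal.ofReal (π * 4 / 3) = _ := hball.symm
      _ ≤ volume (Φ 1 '' S 1 ∪ Φ (-1) '' S (-1)) := measure_mono hcover
      _ ≤ volume (Φ 1 '' S 1) + volume (Φ (-1) '' S (-1)) := measure_union_le _ _
      _ ≤ (∫⁻ y in S 1, ENNReal.ofReal (l * cos (y 0) * y 2 ^ 2)) +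
          ∫⁻ y in S (-1), ENNReal.ofReal (l * cos (y 0) * y 2 ^ 2) :=
        add_le_add (hvol 1 (Or.inl rfl)) (hvol (-1) (Or.inr rfl))
      _ = ∫⁻ y in S 1 ∪ S (-1), ENNReal.ofReal (l * cos (y 0) * y 2 ^ 2) :=
        (lintegral_union (hSm _) hSdisj).symm
      _ ≤ _ := lintegral_mono_set hbox
      _ = _ := box_integral l hl0.le
  rw [ENNReal.ofReal_le_ofReal_iff (by positivity)] at final
  nlinarith

end Pool.Agent.MP_665542_gt.H28
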